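import Pool.Agent.Q279.SC.J.Bas298

/-! Job AODE of project SC (author helper279). -/

set_option autoImplicit false

namespace Pool.Agent.Q279.SC.JAODE

open PowerSeries Pool.Agent.Q279.SC.B298

theorem cast_p (p : ℕ) [Fact p.Prime] : ((p : ℕ) : (ZMod p)⟦X⟧) = 0 := by
  rw [← map_natCast (PowerSeries.C (R := ZMod p)) p, ZMod.natCast_self, map_zero]

theorem two_half (p : ℕ) (hp : p.Prime) (h5 : 5 ≤ p) : 2 * ((p - 1) / 2) = p - 1 := by
  rcases hp.eq_two_or_odd with h | h <;> omega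

/-- the `q`-expansion of the derivative of the Hasse invariant is `E_2` -/
theorem evB (hDer : DerF) (p : ℕ) [hp : Fact p.Prime] (hp5 : 5 ≤ p)
    (A : P2 (ZMod p)) (hA : Iso A ((p - 1) / 2)) (hev : ev (ZMod p) A = 1) :
    ev (ZMod p) (DD (ZMod p) A) = q2 (ZMod p) := by
  have h := (hDer (ZMod p) A _ hA).1
  rw [hev, th_one, mul_zero, mul_one, two_half p hp.out hp5, Nat.cast_sub (by omega), cast_p] at h
  push_cast at h
  linear_combination -h

theorem eq_of_ev (hSt : Sturm) (p : ℕ) [hp : Fact p.Prime] (hp5 : 5 ≤ p) (F G : P2 (ZMod p))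
    (w : ℕ) (hF : Iso F w) (hG : Iso G w) (h : ev (ZMod p) F = ev (ZMod p) G) : F = G := by
  have h1 := hSt p hp5 (F - G) w (w + 1) (iso_sub hF hG) (by omega)
    (by rw [map_sub, h, sub_self]; exact dvd_zero _)
  exact sub_eq_zero.1 h1

theorem main : JAOde := by
  intro hRam hDer hSt p hp hp5 A hA hev
  have hB := evB hDer p hp5 A hA hev
  have hBi := iso_DD hA
  have h := (hDer (ZMod p) (DD (ZMod p) A) _ hBi).1
  have e1 : 2 * ((p - 1) / 2 + 1) = p + 1 := by
    have := two_half p hp.out hp5; omega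
  rw [hB, e1, r2 hRam, Nat.cast_add, cast_p] at h
  push_cast at h
  refine eq_of_ev hSt p hp5 _ _ ((p - 1) / 2 + 1 + 1) (iso_DD hBi) ?_ ?_
  · rw [neg_mul]
    have := iso_neg (iso_mul (iso_X0 (R := ZMod p)) hA)
    have e2 : 2 + (p - 1) / 2 = (p - 1) / 2 + 1 + 1 := by omega
    rwa [e2] at this
  · rw [map_mul, map_neg, ev_X0, hev]
    linear_combination -h

end Pool.Agent.Q279.SC.JAODE
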