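import Pool.Agent.Q279.SC.J.AODE

/-! Job COREB of project SC (author helper279). -/

set_option autoImplicit false

namespace Pool.Agent.Q279.SC.JCOREB

open PowerSeries Pool.Agent.Q279.SC.B298 Pool.Agent.Q279.SC.JAODE

theorem main : JCoreB := by
  intro hRam hDer hSt p hp hp5 A G hA hev hG hth x y hxA hxB
  have hB := evB hDer p hp5 A hA hev
  have hBi := iso_DD hA
  have hGd := (hDer (ZMod p) G _ hG).1
  have e1 : ((2 * (6 * p - 1) : ℕ) : (ZMod p)⟦X⟧) = -2 := by
    have : 2 * (6 * p - 1) = 12 * p - 2 := by omega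
    rw [this, Nat.cast_sub (by omega), Nat.cast_mul, cast_p]
    push_cast
    ring
  rw [e1, hth] at hGd
  have h2 := two_half p hp.out hp5
  set S1 : P2 (ZMod p) := DD (ZMod p) (MvPolynomial.X 0 * MvPolynomial.X 1) with hS1
  have hXX : Iso (MvPolynomial.X 0 * MvPolynomial.X 1 : P2 (ZMod p)) 5 :=
    iso_mul (iso_X0 (R := ZMod p)) (iso_X1 (R := ZMod p))
  have hS1i : Iso S1 6 := iso_DD hXX
  have hZ : A * DD (ZMod p) G + A ^ 3 * (MvPolynomial.X 0 * MvPolynomial.X 1) ^ (p - 1) * S1 =
      ((2 : ℕ) : P2 (ZMod p)) * (DD (ZMod p) A * G) + A * S1 ^ p := by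
    refine eq_of_ev hSt p hp5 _ _ ((p - 1) / 2 + 6 * p) ?_ ?_ ?_
    · refine iso_add ?_ ?_
      · have := iso_mul hA (iso_DD hG)
        have e : (p - 1) / 2 + (6 * p - 1 + 1) = (p - 1) / 2 + 6 * p := by omega
        rwa [e] at this
      · have := iso_mul (iso_mul (iso_pow hA 3) (iso_pow hXX (p - 1))) hS1i
        have e : 3 * ((p - 1) / 2) + (p - 1) * 5 + 6 = (p - 1) / 2 + 6 * p := by omega
        rwa [e] at this
    · refine iso_add (iso_natmul 2 ?_) ?_
      · have := iso_mul hBi hG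
        have e : (p - 1) / 2 + 1 + (6 * p - 1) = (p - 1) / 2 + 6 * p := by omega
        rwa [e] at this
      · have := iso_mul hA (iso_pow hS1i p)
        have e : (p - 1) / 2 + p * 6 = (p - 1) / 2 + 6 * p := by omega
        rwa [e] at this
    · rw [map_add, map_add, map_mul, map_mul, map_mul, map_mul, map_mul, map_mul, map_pow,
        map_pow, map_pow, map_mul, hev, hB, ev_X0, ev_X1, map_natCast]
      push_cast
      linear_combination -hGd
  have hev2 := congrArg (at2 x y) hZ
  rw [at2, at2] at hev2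
  simp only [map_add, map_mul, map_pow, map_natCast] at hev2
  rw [at2] at hxA
  rw [at2] at hxB
  rw [at2]
  rw [hxA] at hev2
  have h20 : ((2 : ℕ) : ZMod p) ≠ 0 := by
    intro h
    rw [ZMod.natCast_eq_zero_iff] at h
    have := Nat.le_of_dvd (by norm_num) h
    omega
  have h3 : ((2 : ℕ) : ZMod p) * ((MvPolynomial.eval ![x, y]) (DD (ZMod p) A) *
      (MvPolynomial.eval ![x, y]) G) = 0 := by
    linear_combination -hev2
  rcases mul_eq_zero.1 h3 with h | h
  · exact absurd h h20
  · rcases mul_eq_zero.1 h with h | h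
    · exact absurd h hxB
    · exact h

end Pool.Agent.Q279.SC.JCOREB
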