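import Pool.Agent.Q279.SC.Stm

/-!
# Project SC, job HS1: the Hasse polynomial is isobaric
-/

set_option autoImplicit false

namespace Pool.Agent.Q279.SC.JHS1

open Pool.Agent.Q279.SC

noncomputable section

/-- `F` is isobaric of weight `w`, the variable of the polynomial ring having weight one -/
def Hm {R : Type} [CommRing R] (F : Polynomial (P2 R)) (w : ℕ) : Prop :=
  (∀ k j, k + j = w → Iso (F.coeff k) j) ∧ ∀ k, w < k → F.coeff k = 0

theorem Hm.mul {R : Type} [CommRing R] {F G : Polynomial (P2 R)} {a b : ℕ} (hF : Hm F a)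
    (hG : Hm G b) : Hm (F * G) (a + b) := by
  constructor
  · intro k j hkj
    rw [Polynomial.coeff_mul]
    refine MvPolynomial.IsWeightedHomogeneous.sum _ _ _ ?_
    rintro ⟨x, y⟩ hxy
    rw [Finset.HasAntidiagonal.mem_antidiagonal] at hxy
    simp only at hxy ⊢
    by_cases hx : a < x
    · rw [hF.2 x hx, zero_mul]
      exact MvPolynomial.isWeightedHomogeneous_zero _ _ _
    by_cases hy : b < y
    · rw [hG.2 y hy, mul_zero]
      exact MvPolynomial.isWeightedHomogeneous_zero _ _ _
    have h1 := hF.1 x (a - x) (by omega)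
    have h2 := hG.1 y (b - y) (by omega)
    have h3 := h1.mul h2
    rwa [show a - x + (b - y) = j by omega] at h3
  · intro k hk
    rw [Polynomial.coeff_mul]
    refine Finset.sum_eq_zero ?_
    rintro ⟨x, y⟩ hxy
    rw [Finset.HasAntidiagonal.mem_antidiagonal] at hxy
    simp only at hxy ⊢
    by_cases hx : a < x
    · rw [hF.2 x hx, zero_mul]
    · rw [hG.2 y (by omega), mul_zero]

theorem Hm.one {R : Type} [CommRing R] : Hm (1 : Polynomial (P2 R)) 0 := by
  constructor
  · intro k j hkj
    obtain ⟨rfl, rfl⟩ : k = 0 ∧ j = 0 := by omega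
    rw [Polynomial.coeff_one_zero]
    exact MvPolynomial.isWeightedHomogeneous_one _ _
  · intro k hk
    rw [Polynomial.coeff_one, if_neg (by omega)]

theorem Hm.pow {R : Type} [CommRing R] {F : Polynomial (P2 R)} {a : ℕ} (hF : Hm F a) (n : ℕ) :
    Hm (F ^ n) (n * a) := by
  induction n with
  | zero => simpa using Hm.one
  | succ n ih =>
    rw [pow_succ, Nat.succ_mul]
    exact ih.mul hF

theorem isoX0 {R : Type} [CommRing R] (c : R) :
    Iso (MvPolynomial.C c * MvPolynomial.X 0 : P2 R) 2 := by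
  have h := (MvPolynomial.isWeightedHomogeneous_X R (![2, 3] : Fin 2 → ℕ) 0).C_mul c
  exact h

theorem isoX1 {R : Type} [CommRing R] (c : R) :
    Iso (MvPolynomial.C c * MvPolynomial.X 1 : P2 R) 3 := by
  have h := (MvPolynomial.isWeightedHomogeneous_X R (![2, 3] : Fin 2 → ℕ) 1).C_mul c
  exact h

theorem cub_eq {R : Type} [CommRing R] : cub R = Polynomial.X ^ 3 -
    Polynomial.C (MvPolynomial.C 27 * MvPolynomial.X 0) * Polynomial.X -
    Polynomial.C (MvPolynomial.C 54 * MvPolynomial.X 1) := by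
  rw [cub]
  congr 3

theorem cub_hm {R : Type} [CommRing R] : Hm (cub R) 3 := by
  rw [cub_eq]
  constructor
  · intro k j hkj
    have hk : k = 0 ∧ j = 3 ∨ k = 1 ∧ j = 2 ∨ k = 2 ∧ j = 1 ∨ k = 3 ∧ j = 0 := by omega
    rcases hk with ⟨rfl, rfl⟩ | ⟨rfl, rfl⟩ | ⟨rfl, rfl⟩ | ⟨rfl, rfl⟩
    · have h : (Polynomial.X ^ 3 - Polynomial.C (MvPolynomial.C 27 * MvPolynomial.X 0) *
          Polynomial.X - Polynomial.C (MvPolynomial.C 54 * MvPolynomial.X 1) :
            Polynomial (P2 R)).coeff 0 = - (MvPolynomial.C 54 * MvPolynomial.X 1) := by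
        simp [Polynomial.coeff_X_pow]
      rw [h]
      exact (isoX1 54).neg
    · have h : (Polynomial.X ^ 3 - Polynomial.C (MvPolynomial.C 27 * MvPolynomial.X 0) *
          Polynomial.X - Polynomial.C (MvPolynomial.C 54 * MvPolynomial.X 1) :
            Polynomial (P2 R)).coeff 1 = - (MvPolynomial.C 27 * MvPolynomial.X 0) := by
        simp [Polynomial.coeff_X_pow, Polynomial.coeff_C]
      rw [h]
      exact (isoX0 27).neg
    · have h : (Polynomial.X ^ 3 - Polynomial.C (MvPolynomial.C 27 * MvPolynomial.X 0) *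
          Polynomial.X - Polynomial.C (MvPolynomial.C 54 * MvPolynomial.X 1) :
            Polynomial (P2 R)).coeff 2 = 0 := by
        simp [Polynomial.coeff_X_pow, Polynomial.coeff_C, Polynomial.coeff_X]
      rw [h]
      exact MvPolynomial.isWeightedHomogeneous_zero _ _ _
    · have h : (Polynomial.X ^ 3 - Polynomial.C (MvPolynomial.C 27 * MvPolynomial.X 0) *
          Polynomial.X - Polynomial.C (MvPolynomial.C 54 * MvPolynomial.X 1) :
            Polynomial (P2 R)).coeff 3 = 1 := by
        simp [Polynomial.coeff_X_pow, Polynomial.coeff_C, Polynomial.coeff_X]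
      rw [h]
      exact MvPolynomial.isWeightedHomogeneous_one _ _
  · intro k hk
    have h0 : k ≠ 0 := by omega
    have h1 : 1 ≠ k := by omega
    have h3 : k ≠ 3 := by omega
    rw [Polynomial.coeff_sub, Polynomial.coeff_sub, Polynomial.coeff_C_mul, Polynomial.coeff_X,
      Polynomial.coeff_X_pow, Polynomial.coeff_C, if_neg h1, if_neg h3, if_neg h0]
    simp

/-- Job HS1. -/
theorem main : Hs1 := by
  intro p hp h5
  have h := (cub_hm (R := ZMod p)).pow ((p - 1) / 2)
  have hodd : Odd p := (Fact.out : p.Prime).odd_of_ne_two (by omega)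
  obtain ⟨n, hn⟩ := hodd
  exact h.1 (p - 1) ((p - 1) / 2) (by omega)

end

end Pool.Agent.Q279.SC.JHS1
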