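import Pool.Agent.Q279.SC.J.Bas298

/-! Job STURM of project SC (author helper279). -/

set_option autoImplicit false

namespace Pool.Agent.Q279.SC.JSTURM

open PowerSeries Pool.Agent.Q279.SC.B298

noncomputable section

variable {R : Type} [CommRing R]

/-- `E_4^3 - E_6^2` -/
def dl (R : Type) [CommRing R] : P2 R := MvPolynomial.X 0 ^ 3 - MvPolynomial.X 1 ^ 2

theorem mon_red (b s : ℕ) : ∀ i : ℕ, ∃ F' : P2 R,
    (MvPolynomial.X 0 ^ i * MvPolynomial.X 1 ^ (b + 2 * s) : P2 R) =
      MvPolynomial.X 0 ^ (i + 3 * s) * MvPolynomial.X 1 ^ b + dl R * F' ∧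
    Iso F' (2 * i + 3 * b + 6 * s - 6) ∧ (s = 0 → F' = 0) := by
  induction s with
  | zero => intro i; exact ⟨0, by simp, iso_zero _, fun _ => rfl⟩
  | succ s ih =>
    intro i
    obtain ⟨G, h1, h2, -⟩ := ih (i + 3)
    refine ⟨G - MvPolynomial.X 0 ^ i * MvPolynomial.X 1 ^ (b + 2 * s), ?_, ?_, fun h => by omega⟩
    · have e1 : i + 3 * (s + 1) = i + 3 + 3 * s := by ring
      have e2 : b + 2 * (s + 1) = (b + 2 * s) + 2 := by ring
      rw [e1, e2]
      rw [dl] at h1 ⊢
      linear_combination h1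
    · refine iso_sub ?_ ?_
      · have e : 2 * (i + 3) + 3 * b + 6 * s - 6 = 2 * i + 3 * b + 6 * (s + 1) - 6 := by omega
        rwa [e] at h2
      · have h3 := iso_mul (iso_pow (iso_X0 (R := R)) i) (iso_pow (iso_X1 (R := R)) (b + 2 * s))
        have e : i * 2 + (b + 2 * s) * 3 = 2 * i + 3 * b + 6 * (s + 1) - 6 := by omega
        rwa [e] at h3

/-- every isobaric polynomial is a single monomial modulo `E_4^3 - E_6^2` -/
theorem iso_red (w : ℕ) (F : P2 R) (hF : Iso F w) : ∃ (c : R) (F' : P2 R),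
    F = MvPolynomial.C c * (MvPolynomial.X 0 ^ ((w - 3 * (w % 2)) / 2) * MvPolynomial.X 1 ^ (w % 2)) +
      dl R * F' ∧ Iso F' (w - 6) ∧ (w < 6 → F' = 0) := by
  classical
  have key : ∀ (S : Finset (Fin 2 →₀ ℕ)), (∀ d ∈ S, Finsupp.weight (![2, 3] : Fin 2 → ℕ) d = w) →
      ∃ (c : R) (F' : P2 R),
    (∑ d ∈ S, MvPolynomial.monomial d (F.coeff d)) =
      MvPolynomial.C c * (MvPolynomial.X 0 ^ ((w - 3 * (w % 2)) / 2) * MvPolynomial.X 1 ^ (w % 2)) +
      dl R * F' ∧ Iso F' (w - 6) ∧ (w < 6 → F' = 0) := by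
    intro S
    induction S using Finset.induction_on with
    | empty => intro _; exact ⟨0, 0, by simp, iso_zero _, fun _ => rfl⟩
    | insert d S hd ih =>
      intro hS
      obtain ⟨c, F', h1, h2, h3⟩ := ih fun d hd => hS d (Finset.mem_insert_of_mem hd)
      have hdw := hS d (Finset.mem_insert_self _ _)
      rw [Finsupp.weight_apply, Finsupp.sum_fintype _ _ (by simp), Fin.sum_univ_two] at hdw
      simp only [smul_eq_mul, Matrix.cons_val_zero, Matrix.cons_val_one] at hdw
      set i := d 0 with hi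
      set j := d 1 with hj
      have hb : w % 2 = j % 2 := by omega
      set b := w % 2 with hbdef
      set s := j / 2 with hs
      have hjs : j = b + 2 * s := by omega
      have hi2 : (w - 3 * b) / 2 = i + 3 * s := by omega
      obtain ⟨G, g1, g2, g3⟩ := mon_red (R := R) b s i
      refine ⟨c + F.coeff d, F' + MvPolynomial.C (F.coeff d) * G, ?_, ?_, ?_⟩
      · rw [Finset.sum_insert hd, h1]
        have hm : (MvPolynomial.monomial d (F.coeff d) : P2 R) =
            MvPolynomial.C (F.coeff d) * (MvPolynomial.X 0 ^ i * MvPolynomial.X 1 ^ j) := by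
          rw [MvPolynomial.monomial_eq, Finsupp.prod_fintype _ _ (by simp), Fin.prod_univ_two]
        rw [hm, hjs, g1, hi2, MvPolynomial.C_add]
        ring
      · refine iso_add h2 (iso_Cmul _ ?_)
        have e : 2 * i + 3 * b + 6 * s - 6 = w - 6 := by omega
        rwa [e] at g2
      · intro hw
        rw [h3 hw, g3 (by omega), mul_zero, add_zero]
  have h := key F.support fun d hd => hF (MvPolynomial.mem_support_iff.1 hd)
  rwa [← MvPolynomial.as_sum F] at h

theorem ev_dl (hRam : Ram) : ev R (dl R) = X * (1728 * qd R) := by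
  rw [dl, map_sub, map_pow, map_pow, ev_X0, ev_X1, ← rD hRam, rd hRam]
  ring

theorem const_ev_mon (c : R) (a b : ℕ) : constantCoeff (ev R (MvPolynomial.C c *
    (MvPolynomial.X 0 ^ a * MvPolynomial.X 1 ^ b))) = c := by
  simp only [map_mul, map_pow, ev_X0, ev_X1, ev_C, c4, c6, one_pow, mul_one]
  simp

theorem main : JSturm := by
  intro hRam p hp hp5 F w m hF hwm hdvd
  have h1728 : (1728 : ZMod p) ≠ 0 := by
    intro h
    have h2 : ((1728 : ℕ) : ZMod p) = 0 := by exact_mod_cast h
    rw [ZMod.natCast_eq_zero_iff] at h2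
    have h3 : p ∣ 2 ^ 6 * 3 ^ 3 := by norm_num; exact h2
    rcases (Nat.Prime.dvd_mul hp.out).1 h3 with h | h
    · have := Nat.le_of_dvd (by norm_num) (hp.out.dvd_of_dvd_pow h); omega
    · have := Nat.le_of_dvd (by norm_num) (hp.out.dvd_of_dvd_pow h); omega
  have hU : IsUnit (1728 * qd (ZMod p)) := by
    rw [PowerSeries.isUnit_iff_constantCoeff, map_mul, rd0 hRam, mul_one, map_ofNat]
    exact h1728.isUnit
  induction m generalizing F w with
  | zero => omega
  | succ m ih =>
    obtain ⟨c, F', h1, h2, h3⟩ := iso_red w F hF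
    have hc : c = 0 := by
      have h4 : constantCoeff (ev (ZMod p) F) = 0 := by
        obtain ⟨g, hg⟩ := hdvd
        rw [hg, pow_succ]
        simp
      rw [h1, map_add, map_add, const_ev_mon, map_mul (ev (ZMod p)), ev_dl hRam] at h4
      simpa using h4
    rw [hc, map_zero, zero_mul, zero_add] at h1
    by_cases hw : w < 6
    · rw [h1, h3 hw, mul_zero]
    · have h5 : X ^ m ∣ ev (ZMod p) F' := by
        rw [h1, map_mul, ev_dl hRam, pow_succ, mul_comm (X ^ m) X, mul_assoc] at hdvd
        have h6 := (mul_dvd_mul_iff_left (X_ne_zero (R := ZMod p))).1 hdvd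
        exact (IsUnit.dvd_mul_left hU).1 h6
      rw [h1, ih F' (w - 6) h2 (by omega) h5, mul_zero]

end

end Pool.Agent.Q279.SC.JSTURM
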