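import Pool.Agent.Q279.SC.J.STURM

/-! Job DUAL of project SC (author helper279). -/

set_option autoImplicit false

namespace Pool.Agent.Q279.SC.JDUAL

open PowerSeries Pool.Agent.Q279.SC.B298 Pool.Agent.Q279.SC.JSTURM

noncomputable section

variable {R : Type} [CommRing R]

/-- structure of isobaric polynomials of weight `5 + 6 l` -/
theorem struct5 (l : ℕ) : ∀ N : P2 R, Iso N (5 + 6 * l) → ∃ h : ℕ → R,
    N = MvPolynomial.X 0 * MvPolynomial.X 1 *
      ∑ k ∈ Finset.range (l + 1), MvPolynomial.C (h k) *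
        ((MvPolynomial.X 0 ^ 3) ^ k * dl R ^ (l - k)) := by
  induction l with
  | zero =>
    intro N hN
    obtain ⟨c, F', h1, h2, h3⟩ := iso_red _ N hN
    refine ⟨fun _ => c, ?_⟩
    rw [h1, h3 (by omega)]
    simp
    ring
  | succ l ih =>
    intro N hN
    obtain ⟨c, F', h1, h2, h3⟩ := iso_red _ N hN
    have e1 : (5 + 6 * (l + 1)) % 2 = 1 := by omega
    have e2 : (5 + 6 * (l + 1) - 3 * 1) / 2 = 3 * (l + 1) + 1 := by omega
    have e3 : 5 + 6 * (l + 1) - 6 = 5 + 6 * l := by omega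
    rw [e1, e2] at h1
    rw [e3] at h2
    obtain ⟨h, hh⟩ := ih F' h2
    refine ⟨fun k => if k = l + 1 then c else h k, ?_⟩
    rw [Finset.sum_range_succ]
    beta_reduce
    rw [if_pos rfl, Nat.sub_self, pow_zero, mul_one]
    have e4 : ∑ k ∈ Finset.range (l + 1), MvPolynomial.C (if k = l + 1 then c else h k) *
        ((MvPolynomial.X 0 ^ 3) ^ k * dl R ^ (l + 1 - k)) =
        dl R * ∑ k ∈ Finset.range (l + 1), MvPolynomial.C (h k) *
          ((MvPolynomial.X 0 ^ 3) ^ k * dl R ^ (l - k)) := by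
      rw [Finset.mul_sum]
      refine Finset.sum_congr rfl fun k hk => ?_
      rw [Finset.mem_range] at hk
      rw [if_neg (by omega), show l + 1 - k = (l - k) + 1 by omega, pow_succ]
      ring
    rw [e4, h1]
    conv_lhs => rw [hh]
    rw [← pow_mul]
    ring

theorem th_X : th (X : R⟦X⟧) = X := by
  rw [th_eq, derivative_X, mul_one]

theorem th_qd [IsDomain R] (hRam : Ram) : th (qd R) = (q2 R - 1) * qd R := by
  have h := rth (R := R) hRam
  rw [rd hRam, th_mul, th_X] at h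
  have h2 : X * (th (qd R)) = X * ((q2 R - 1) * qd R) := by linear_combination h
  exact mul_left_cancel₀ X_ne_zero h2

theorem key [IsDomain R] [CharZero R] (hRam : Ram) (e : R⟦X⟧) (he : qd R * e = 1) (k : ℕ) :
    coeff (k + 1) (e ^ (k + 1) * (q4 R ^ 2 * q6 R * (q4 R ^ 3) ^ k)) = 0 := by
  have hthe : th e = -((q2 R - 1) * e) := by
    have h := congrArg th he
    rw [th_mul, th_one, th_qd hRam] at h
    linear_combination e * h - (th e + (q2 R - 1) * e) * he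
  have hth : th (q4 R ^ 3 * e) = (q4 R ^ 3 - q4 R ^ 2 * q6 R) * e := by
    have h4 := r4 (R := R) hRam
    rw [th_mul, th_pow, hthe]
    push_cast
    linear_combination (q4 R ^ 2 * e) * h4
  have hW : th ((q4 R ^ 3 * e) ^ (k + 1)) = ((k + 1 : ℕ) : R⟦X⟧) *
      ((q4 R ^ 3 * e) ^ (k + 1) - e ^ (k + 1) * (q4 R ^ 2 * q6 R * (q4 R ^ 3) ^ k)) := by
    rw [th_pow, hth, Nat.add_sub_cancel]
    ring
  have h := congrArg (coeff (k + 1)) hW
  rw [coeff_th, ← map_natCast (PowerSeries.C (R := R)) (k + 1), coeff_C_mul, map_sub] at h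
  have h2 : ((k + 1 : ℕ) : R) * coeff (k + 1) (e ^ (k + 1) * (q4 R ^ 2 * q6 R * (q4 R ^ 3) ^ k)) =
      0 := by linear_combination h
  rcases mul_eq_zero.1 h2 with h3 | h3
  · exact absurd h3 (Nat.cast_ne_zero.2 (Nat.succ_ne_zero k))
  · exact h3

theorem main : JDual := by
  intro hRam p hp hp5 N hN hdvd x y D c Φ hD hc _ hΦ
  have hqd0 := rd0 (R := ℤ_[p]) hRam
  obtain ⟨e, he⟩ : ∃ e : ℤ_[p]⟦X⟧, qd ℤ_[p] * e = 1 := by
    have hu : IsUnit (qd ℤ_[p]) := by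
      rw [PowerSeries.isUnit_iff_constantCoeff, hqd0]; exact isUnit_one
    exact hu.exists_right_inv
  obtain ⟨l, hl⟩ : ∃ l, p = l + 1 := ⟨p - 1, by omega⟩
  have hw : 6 * p - 1 = 5 + 6 * l := by omega
  rw [hw] at hN
  obtain ⟨h, hh⟩ := struct5 l N hN
  have he0 : constantCoeff e = 1 := by
    have := congrArg constantCoeff he
    rw [map_mul, hqd0, one_mul, map_one] at this
    exact this
  have hΦ0 : constantCoeff Φ = 1 := by
    have h1 := congrArg constantCoeff hΦ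
    rw [rd hRam] at h1
    simp only [map_mul, map_sub, map_pow, c4, hqd0, one_pow, mul_one] at h1
    simpa using h1
  have hX := rd (R := ℤ_[p]) hRam
  -- the coefficients of `Φ e^p q4 q6 U^k qD^(l-k)`
  have hT : ∀ k : ℕ, k ≤ l → coeff l (Φ * e ^ p * (q4 ℤ_[p] * q6 ℤ_[p]) *
      ((q4 ℤ_[p] ^ 3) ^ k * qD ℤ_[p] ^ (l - k))) = c ^ k := by
    intro k
    induction k with
    | zero =>
      intro _
      have e1 : Φ * e ^ p * (q4 ℤ_[p] * q6 ℤ_[p]) * ((q4 ℤ_[p] ^ 3) ^ 0 * qD ℤ_[p] ^ (l - 0)) =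
          X ^ l * (Φ * e * (q4 ℤ_[p] * q6 ℤ_[p])) := by
        have e2 : e ^ p * qd ℤ_[p] ^ l = e := by
          rw [congrArg (fun n => e ^ n) hl]
          rw [pow_succ', mul_assoc, ← mul_pow, mul_comm e (qd ℤ_[p]), he, one_pow, mul_one]
        rw [pow_zero, one_mul, Nat.sub_zero, hX, mul_pow]
        calc Φ * e ^ p * (q4 ℤ_[p] * q6 ℤ_[p]) * (X ^ l * qd ℤ_[p] ^ l) =
            X ^ l * (Φ * (e ^ p * qd ℤ_[p] ^ l) * (q4 ℤ_[p] * q6 ℤ_[p])) := by ring
          _ = _ := by rw [e2]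
      rw [e1]
      have e3 := coeff_X_pow_mul (Φ * e * (q4 ℤ_[p] * q6 ℤ_[p])) l 0
      rw [zero_add] at e3
      rw [e3, coeff_zero_eq_constantCoeff_apply, map_mul, map_mul, map_mul, hΦ0, he0, c4, c6]
      simp
    | succ k ih =>
      intro hk
      have ih' := ih (by omega)
      have e1 : Φ * e ^ p * (q4 ℤ_[p] * q6 ℤ_[p]) *
          ((q4 ℤ_[p] ^ 3) ^ (k + 1) * qD ℤ_[p] ^ (l - (k + 1))) =
          PowerSeries.C c * (Φ * e ^ p * (q4 ℤ_[p] * q6 ℤ_[p]) *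
            ((q4 ℤ_[p] ^ 3) ^ k * qD ℤ_[p] ^ (l - k))) +
          X ^ (l - (k + 1)) * (e ^ (k + 1) * (q4 ℤ_[p] ^ 2 * q6 ℤ_[p] * (q4 ℤ_[p] ^ 3) ^ k)) := by
        obtain ⟨r, hr⟩ : ∃ r, l = r + (k + 1) := ⟨l - (k + 1), by omega⟩
        have e4 : l - (k + 1) = r := by omega
        have e5 : l - k = r + 1 := by omega
        rw [e4, e5]
        have e6 : e ^ p * qd ℤ_[p] * qd ℤ_[p] ^ r = e ^ (k + 1) := by
          have : p = (r + 1) + (k + 1) := by omega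
          rw [congrArg (fun n => e ^ n) this]
          rw [pow_add e, mul_assoc, ← pow_succ', mul_right_comm, ← mul_pow, mul_comm e, he,
            one_pow, one_mul]
        have e7 : qD ℤ_[p] ^ r = X ^ r * qd ℤ_[p] ^ r := by rw [hX, mul_pow]
        calc Φ * e ^ p * (q4 ℤ_[p] * q6 ℤ_[p]) * ((q4 ℤ_[p] ^ 3) ^ (k + 1) * qD ℤ_[p] ^ r)
            = PowerSeries.C c * (Φ * e ^ p * (q4 ℤ_[p] * q6 ℤ_[p]) *
                ((q4 ℤ_[p] ^ 3) ^ k * qD ℤ_[p] ^ (r + 1))) +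
              (Φ * (q4 ℤ_[p] ^ 3 - PowerSeries.C c * qD ℤ_[p])) * (e ^ p * (q4 ℤ_[p] * q6 ℤ_[p]) *
                ((q4 ℤ_[p] ^ 3) ^ k * qD ℤ_[p] ^ r)) := by ring
          _ = PowerSeries.C c * (Φ * e ^ p * (q4 ℤ_[p] * q6 ℤ_[p]) *
                ((q4 ℤ_[p] ^ 3) ^ k * qD ℤ_[p] ^ (r + 1))) +
              X ^ r * ((e ^ p * qd ℤ_[p] * qd ℤ_[p] ^ r) *
                (q4 ℤ_[p] ^ 2 * q6 ℤ_[p] * (q4 ℤ_[p] ^ 3) ^ k)) := by
              rw [hΦ, e7]; ring
          _ = _ := by rw [e6]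
      rw [e1, map_add, coeff_C_mul, ih']
      have e3 := coeff_X_pow_mul (e ^ (k + 1) * (q4 ℤ_[p] ^ 2 * q6 ℤ_[p] * (q4 ℤ_[p] ^ 3) ^ k))
        (l - (k + 1)) (k + 1)
      have e8 : k + 1 + (l - (k + 1)) = l := by omega
      rw [e8] at e3
      rw [e3, key hRam e he k, add_zero, pow_succ]
      ring
  -- the expansion of `ev N`
  have hevN : ev ℤ_[p] N = (q4 ℤ_[p] * q6 ℤ_[p]) * ∑ k ∈ Finset.range (l + 1),
      PowerSeries.C (h k * 1728 ^ (l - k)) * ((q4 ℤ_[p] ^ 3) ^ k * qD ℤ_[p] ^ (l - k)) := by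
    conv_lhs => rw [hh]
    rw [map_mul, map_mul, ev_X0, ev_X1, map_sum]
    congr 1
    refine Finset.sum_congr rfl fun k _ => ?_
    rw [map_mul, map_mul, map_pow, map_pow, map_pow, ev_C, ev_X0, ev_dl hRam, hX]
    have e9 : (X * (1728 * qd ℤ_[p])) ^ (l - k) = 1728 ^ (l - k) * (X * qd ℤ_[p]) ^ (l - k) := by
      rw [← mul_pow]; congr 1; ring
    rw [e9, map_mul (PowerSeries.C (R := ℤ_[p])), map_pow (PowerSeries.C (R := ℤ_[p])), map_ofNat]
    ring
  have hcoef : coeff l Φ = ∑ k ∈ Finset.range (l + 1), h k * 1728 ^ (l - k) * c ^ k := by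
    obtain ⟨g, hg⟩ := hdvd
    have e1 : Φ * e ^ p * ev ℤ_[p] N = Φ + X ^ p * (Φ * e ^ p * g) := by
      have e2 : ev ℤ_[p] N = qd ℤ_[p] ^ p + X ^ p * g := by linear_combination hg
      have e3 : e ^ p * qd ℤ_[p] ^ p = 1 := by rw [← mul_pow, mul_comm e, he, one_pow]
      rw [e2]
      linear_combination Φ * e3
    have e2 := congrArg (coeff l) e1
    rw [map_add, coeff_X_pow_mul', if_neg (by omega), add_zero] at e2
    rw [← e2, hevN, ← mul_assoc, Finset.mul_sum, map_sum]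
    refine Finset.sum_congr rfl fun k hk => ?_
    rw [Finset.mem_range] at hk
    have e4 : Φ * e ^ p * (q4 ℤ_[p] * q6 ℤ_[p]) *
        (PowerSeries.C (h k * 1728 ^ (l - k)) * ((q4 ℤ_[p] ^ 3) ^ k * qD ℤ_[p] ^ (l - k))) =
        PowerSeries.C (h k * 1728 ^ (l - k)) * (Φ * e ^ p * (q4 ℤ_[p] * q6 ℤ_[p]) *
          ((q4 ℤ_[p] ^ 3) ^ k * qD ℤ_[p] ^ (l - k))) := by ring
    rw [e4, coeff_C_mul, hT k (by omega)]
  have hat : at2 x y N = x * y * ∑ k ∈ Finset.range (l + 1), h k * ((x ^ 3) ^ k *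
      (1728 * D) ^ (l - k)) := by
    conv_lhs => rw [hh]
    rw [at2, map_mul, map_mul, map_sum]
    simp only [map_mul, map_pow, MvPolynomial.eval_X, MvPolynomial.eval_C, dl, map_sub,
      Matrix.cons_val_zero, Matrix.cons_val_one]
    rw [hD]
  rw [hat]
  have hp1 : p - 1 = l := by omega
  rw [hp1, hcoef, Finset.mul_sum, Finset.mul_sum]
  refine Finset.sum_congr rfl fun k hk => ?_
  rw [Finset.mem_range] at hk
  have e5 : D ^ l = D ^ k * D ^ (l - k) := by rw [← pow_add]; congr 1; omega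
  rw [← hc, e5, mul_pow, mul_pow]
  ring

end

end Pool.Agent.Q279.SC.JDUAL
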